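import Pool.Agent.H126V.Taub

/-!
# The Tauberian Tate conjecture in families of products of quadratic twists of curves

`K` is any number field, `C₁, …, C_r` are hyperelliptic curves `y² = f_i(x)` over `K` with `f_i` of
odd degree `2 g_i + 1 ≥ 3` (all elliptic curves are of this kind), and for `d = (d₁, …, d_r)` the
variety `V_d = ∏ C_{i, d_i}` is the product of the quadratic twists `d_i y² = f_i(x)`.  By the
Künneth formula `H²(V_d)` is the sum of the `r` lines `H²(C_{i, d_i})` and of the spaces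
`H¹(C_{i, d_i}) ⊗ H¹(C_{j, d_j})`, `i < j`.  The rank of `NS(V_d / K)` is the sum of `r` and of the
ranks of the groups of homomorphisms between the Jacobians of `C_{i, d_i}` and `C_{j, d_j}`; it is `r`
unless one of the products `d_i d_j` lies in one of finitely many square classes.
-/

set_option autoImplicit false

namespace Pool.Agent.Results.MP_4589ac_nt.TwistFamilies

open NumberField IsDedekindDomain Filter Topology Polynomial

/-- Number of affine points of `d y² = f(x)` with coordinates in the finite field `k`. -/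
noncomputable def affineCount (k : Type) [Field k] (f : k[X]) (d : k) : ℕ :=
  Nat.card {P : k × k // d * P.2 ^ 2 = f.eval P.1}

/-- Trace of the Frobenius at `v` on `H¹` of the smooth projective curve `d y² = f(x)`, `deg f` odd:
it is `q + 1` minus the number of points over the residue field, and there is one point at
infinity. -/
noncomputable def traceH1 {K : Type} [Field K] [NumberField K] (v : HeightOneSpectrum (𝓞 K))
    (f : (𝓞 K)[X]) (d : 𝓞 K) : ℤ :=
  haveI : v.asIdeal.IsMaximal := v.isMaximal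
  letI : Field (𝓞 K ⧸ v.asIdeal) := Ideal.Quotient.field v.asIdeal
  (Ideal.absNorm v.asIdeal : ℤ) + 1 -
    (affineCount (𝓞 K ⧸ v.asIdeal) (f.map (Ideal.Quotient.mk v.asIdeal))
      (Ideal.Quotient.mk v.asIdeal d) + 1)

/-- The pairs `i < j` of indices. -/
def pairs (r : ℕ) : Finset (Fin r × Fin r) := Finset.univ.filter fun p => p.1 < p.2

/-- The trace `b_v(V_d)` of the Frobenius at `v` on `H²` of the product of the curves
`d_i y² = f_i(x)`, by the Künneth formula. -/
noncomputable def b {K : Type} [Field K] [NumberField K] {r : ℕ}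
    (f : Fin r → (𝓞 K)[X]) (d : Fin r → 𝓞 K) (v : HeightOneSpectrum (𝓞 K)) : ℤ :=
  r * (Ideal.absNorm v.asIdeal : ℤ) +
    ∑ p ∈ pairs r, traceH1 v (f p.1) (d p.1) * traceH1 v (f p.2) (d p.2)

/-- The average `X⁻¹ ∑_{v ∉ R, q_v ≤ X} b_v(V_d) log(q_v) / q_v` of the question. -/
noncomputable def tateAverage {K : Type} [Field K] [NumberField K] {r : ℕ}
    (f : Fin r → (𝓞 K)[X]) (d : Fin r → 𝓞 K) (R : Finset (HeightOneSpectrum (𝓞 K))) (X : ℕ) : ℝ :=
  (X : ℝ)⁻¹ * ∑ᶠ v ∈ {v : HeightOneSpectrum (𝓞 K) | v ∉ R ∧ Ideal.absNorm v.asIdeal ≤ X},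
    (b f d v : ℝ) * Real.log (Ideal.absNorm v.asIdeal : ℝ) / (Ideal.absNorm v.asIdeal : ℝ)

/-- **The Tauberian averages of `H²` in families of products of quadratic twists.**  Let `κ` be a
set of indices `k`, finite or infinite, each with a vector `d k` of nonzero twists, such that for
`k ≠ l` and all `i < j` the number `d_i(k) d_j(k) d_i(l) d_j(l)` is not a square in `K`.  Let
`N = ∑_{i < j} 2 g_i · 2 g_j`, and let `R k` be a finite set of primes which contains the primes of bad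
reduction.

1. For every finite `T ⊆ κ` and `η > 0`, for all large `X`,
`∑_{k ∈ T} (tateAverage(V_{d(k)}, X) - r)² ≤ N² + η`.

2. For every finite `T ⊆ κ` and `δ > 0`, for all large `X`, at most `N² / δ²` of the averages
`tateAverage(V_{d(k)}, X)`, `k ∈ T`, differ from `r` by `δ` or more.

3. If the limits `ℓ k` of `tateAverage(V_{d(k)}, X)` for `X → ∞` exist for all `k ∈ κ`, then
`∑_{k ∈ κ} (ℓ_k - r)² ≤ N²`. -/
theorem result (K : Type) [Field K] [NumberField K] (r : ℕ) (f : Fin r → (𝓞 K)[X])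
    (hodd : ∀ i, Odd (f i).natDegree) (h3 : ∀ i, 3 ≤ (f i).natDegree)
    (κ : Type) (d : κ → Fin r → 𝓞 K) (hd0 : ∀ k i, d k i ≠ 0)
    (hsep : ∀ k l, k ≠ l → ∀ i j, i < j →
      ¬ IsSquare ((d k i * d k j * d l i * d l j : 𝓞 K) : K))
    (R : κ → Finset (HeightOneSpectrum (𝓞 K)))
    (hR : ∀ k, ∀ v, v ∉ R k → ∀ i, 2 * d k i * (f i).leadingCoeff ∉ v.asIdeal ∧
      ((f i).map (Ideal.Quotient.mk v.asIdeal)).Separable)
    (N : ℕ) (hN : N = ∑ p ∈ pairs r, ((f p.1).natDegree - 1) * ((f p.2).natDegree - 1)) :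
    (∀ (T : Finset κ) (η : ℝ), 0 < η → ∀ᶠ X : ℕ in atTop,
      ∑ k ∈ T, (tateAverage f (d k) (R k) X - r) ^ 2 ≤ (N : ℝ) ^ 2 + η) ∧
    (∀ (T : Finset κ) (δ : ℝ), 0 < δ → ∀ᶠ X : ℕ in atTop,
      ({k : κ | k ∈ T ∧ δ ≤ |tateAverage f (d k) (R k) X - r|}.ncard : ℝ) ≤ (N : ℝ) ^ 2 / δ ^ 2) ∧
    (∀ ℓ : κ → ℝ, (∀ k, Tendsto (fun X : ℕ => tateAverage f (d k) (R k) X) atTop (𝓝 (ℓ k))) →
      Summable (fun k => (ℓ k - r) ^ 2) ∧ ∑' k, (ℓ k - r) ^ 2 ≤ (N : ℝ) ^ 2) := by
  classical
  have hgood : ∀ k v, v ∉ R k → Pool.Agent.H126T.Gd f (d k) v := by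
    intro k v hv i
    have h1 := (hR k v hv i).1
    refine ⟨fun h => h1 ?_, fun h => h1 ?_, fun h => h1 (v.asIdeal.mul_mem_left _ h)⟩
    · exact v.asIdeal.mul_mem_right _ (v.asIdeal.mul_mem_right _ h)
    · exact v.asIdeal.mul_mem_right _ (v.asIdeal.mul_mem_left _ h)
  have hH1 : ∀ (v : HeightOneSpectrum (𝓞 K)) (g : (𝓞 K)[X]) (e : 𝓞 K), (2 : 𝓞 K) ∉ v.asIdeal →
      e ∉ v.asIdeal → traceH1 v g e = Pool.Agent.H126T.traceH1 v g e 1 := by
    intro v g e h2 he
    haveI : v.asIdeal.IsMaximal := v.isMaximal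
    letI : Field (𝓞 K ⧸ v.asIdeal) := Ideal.Quotient.field v.asIdeal
    haveI : Finite (𝓞 K ⧸ v.asIdeal) := Ideal.finiteQuotientOfFreeOfNeBot _ v.ne_bot
    unfold Pool.Agent.H126T.traceH1
    rw [Pool.Agent.H126T.affPts_eq _ _ 1 (𝓞 K ⧸ v.asIdeal) (by rw [pow_one]), pow_one]
    rfl
  have hav : ∀ k X, tateAverage f (d k) (R k) X =
      Pool.Agent.H126V.Taub.LA (R k) X (fun v =>
        (Pool.Agent.H126T.traceH2 v f (d k) 1 : ℝ) /
          (Pool.Agent.H921R2.TatePole.nm v : ℝ)) := by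
    intro k X
    have hset : {v : HeightOneSpectrum (𝓞 K) | v ∉ R k ∧ Ideal.absNorm v.asIdeal ≤ X} =
        ((Pool.Agent.H126U.ST.VS (R k) X : Finset (HeightOneSpectrum (𝓞 K))) :
          Set (HeightOneSpectrum (𝓞 K))) := by
      ext v
      have h1 : v ∈ Pool.Agent.H126U.VX K X ↔ Ideal.absNorm v.asIdeal ≤ X :=
        Pool.Agent.H126U.mem_VX K
      simp only [Pool.Agent.H126U.ST.VS, Finset.coe_filter, h1, Set.mem_ofPred_eq]
      exact and_comm
    unfold tateAverage Pool.Agent.H126V.Taub.LA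
    rw [hset, finsum_mem_coe_finset, div_eq_inv_mul]
    congr 1
    refine Finset.sum_congr rfl fun v hv => ?_
    have hvR : v ∉ R k := (Finset.mem_filter.1 hv).2
    have hb : (b f (d k) v : ℝ) = (Pool.Agent.H126T.traceH2 v f (d k) 1 : ℝ) := by
      unfold b Pool.Agent.H126T.traceH2
      rw [pow_one]
      congr 2
      refine Finset.sum_congr rfl fun p _ => ?_
      rw [hH1 v _ _ (hgood k v hvR p.1).1 (hgood k v hvR p.1).2.1,
        hH1 v _ _ (hgood k v hvR p.1).1 (hgood k v hvR p.2).2.1]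
    rw [hb]
    show _ * Real.log (Pool.Agent.H921R2.TatePole.nm v : ℝ) /
      (Pool.Agent.H921R2.TatePole.nm v : ℝ) = _
    ring
  have hNr : (∑ p ∈ Pool.Agent.H126T.pairs r, Pool.Agent.H126T.bb f p) = (N : ℝ) := by
    rw [hN]
    push_cast
    refine Finset.sum_congr rfl fun p _ => ?_
    unfold Pool.Agent.H126T.bb
    have h1 := h3 p.1
    have h2 := h3 p.2
    rw [Nat.cast_sub (by omega), Nat.cast_sub (by omega)]
    push_cast
    ring
  have h1 : ∀ (T : Finset κ) (η : ℝ), 0 < η → ∀ᶠ X : ℕ in atTop,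
      ∑ k ∈ T, (tateAverage f (d k) (R k) X - r) ^ 2 ≤ (N : ℝ) ^ 2 + η := by
    intro T η hη
    simp only [hav, ← hNr]
    exact Pool.Agent.H126V.Taub.main f hodd h3 d hd0 hsep R hgood T η hη
  refine ⟨h1, fun T δ hδ => ?_, fun ℓ hℓ => ?_⟩
  · filter_upwards [Pool.Agent.H126U.ST.count_of_sum T
      (fun X k => tateAverage f (d k) (R k) X - r) (h1 T) hδ] with X hX
    rw [le_div_iff₀ (by positivity)]
    have hset : {k : κ | k ∈ T ∧ δ ≤ |tateAverage f (d k) (R k) X - r|} =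
        ((T.filter fun k => δ ≤ |tateAverage f (d k) (R k) X - r| : Finset κ) : Set κ) := by
      ext k
      simp
    rw [hset, Set.ncard_coe_finset]
    exact hX
  · exact Pool.Agent.H126U.JT.limits (fun k X => tateAverage f (d k) (R k) X - r) h1
      (fun k => ℓ k - r) fun k => (hℓ k).sub_const _

end Pool.Agent.Results.MP_4589ac_nt.TwistFamilies
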